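import Pool.Agent.Y546.WQ.Stm5
import Pool.Agent.Y546.WQ.Wie
import Pool.Agent.Y125.WQ.Base
import Pool.Agent.Y688.WQ.STAB
import Pool.Agent.Y447.WQ.LAM

/-!
# Project TJ (helper546): norms of ideal squares to the subfields of two-power index are squares
-/

set_option autoImplicit false

namespace Pool.Agent.Y683.WQ

open NumberField IsDedekindDomain HeightOneSpectrum
open Pool.Agent.Y546.WQ
open WithZero (exp)

variable {p : ℕ} [Fact p.Prime] {E : Type} [Field E] [NumberField E]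

/-- fixed by the elements of exponent `n` -/
def Fx (c : Cyc p E) (n : ℕ) (x : E) : Prop := ∀ t : (ZMod p)ˣ, t ^ n = 1 → c.σ t x = x

/-- totally positive -/
def TP (x : E) : Prop := ∀ φ : E →+* ℂ, ∃ r : ℝ, 0 < r ∧ φ x = (r : ℂ)

/-- the claim for the subfield fixed by the elements of exponent `n` -/
def Cl (c : Cyc p E) (P0 : HeightOneSpectrum (𝓞 E)) (n : ℕ) : Prop :=
  ∀ α : E, α ≠ 0 → Fx c n α → TP α →
    (∀ P : HeightOneSpectrum (𝓞 E), P ≠ P0 → ∃ m : ℤ, P.valuation E α = exp (2 * m)) →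
    (∃ m : ℤ, P0.valuation E α = exp (2 * n * m)) → ∃ β : E, Fx c n β ∧ α = β ^ 2

/-! ### valuations -/

omit [Fact p.Prime] in
lemma exists_exp (P : HeightOneSpectrum (𝓞 E)) {x : E} (hx : x ≠ 0) :
    ∃ k : ℤ, P.valuation E x = exp k := by
  have h : P.valuation E x ≠ 0 := (Valuation.ne_zero_iff _).2 hx
  exact ⟨WithZero.log (P.valuation E x), (WithZero.exp_log h).symm⟩

lemma exp_inj' {a b : ℤ} (h : (exp a : WithZero (Multiplicative ℤ)) = exp b) : a = b :=
  WithZero.exp_injective h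

omit [Fact p.Prime] in
lemma val_prime (P : HeightOneSpectrum (𝓞 E)) {l : ℕ} (hl : ((l : ℕ) : 𝓞 E) ∈ P.asIdeal)
    (hl2 : ((l : ℕ) : 𝓞 E) ∉ P.asIdeal ^ 2) : P.valuation E ((l : ℕ) : E) = exp (-1 : ℤ) := by
  have h0 : ((l : ℕ) : 𝓞 E) ≠ 0 := fun h => hl2 (by rw [h]; exact Ideal.zero_mem _)
  have h1 : P.valuation E ((l : ℕ) : E) = P.intValuation ((l : ℕ) : 𝓞 E) := by
    rw [← valuation_of_algebraMap (K := E)]
    exact congrArg (P.valuation E) (map_natCast (algebraMap (𝓞 E) E) l).symm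
  have h2 := (P.intValuation_le_pow_iff_mem ((l : ℕ) : 𝓞 E) 1).2 (by rwa [pow_one])
  have h3 := mt (P.intValuation_le_pow_iff_mem ((l : ℕ) : 𝓞 E) 2).1 hl2
  have hE : ((l : ℕ) : E) ≠ 0 := by
    intro h
    apply h0
    apply RingOfIntegers.coe_injective
    rw [map_natCast, map_zero]
    exact h
  obtain ⟨k, hk⟩ := exists_exp P hE
  rw [← h1, hk] at h2 h3
  rw [hk]
  rw [WithZero.exp_le_exp] at h2 h3
  push_cast at h2 h3
  congr 1
  omega

omit [Fact p.Prime] in
lemma val_nat (P : HeightOneSpectrum (𝓞 E)) {l : ℕ} (hlp : l.Prime)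
    (hl : ((l : ℕ) : 𝓞 E) ∈ P.asIdeal) (hl2 : ((l : ℕ) : 𝓞 E) ∉ P.asIdeal ^ 2) {n : ℕ} (hn : n ≠ 0) :
    P.valuation E ((n : ℕ) : E) = exp (-(padicValNat l n : ℤ)) := by
  have hF : Fact l.Prime := ⟨hlp⟩
  obtain ⟨m, hm, hnm⟩ : ∃ m : ℕ, n = l ^ (padicValNat l n) * m ∧ ¬ l ∣ m := by
    obtain ⟨m, hm⟩ := @pow_padicValNat_dvd l n
    refine ⟨m, hm, fun h => ?_⟩
    obtain ⟨k, rfl⟩ := h
    have h1 : l ^ (padicValNat l n + 1) ∣ n := ⟨k, by rw [pow_succ, mul_assoc]; exact hm⟩
    exact pow_succ_padicValNat_not_dvd hn h1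
  have h1 : P.valuation E ((m : ℕ) : E) = 1 := by
    have h2 := val_one P ((m : ℤ) : 𝓞 E) (int_notMem P.asIdeal P.isPrime l hlp hl m
      (by exact_mod_cast hnm))
    simpa using h2
  conv_lhs => rw [hm]
  rw [Nat.cast_mul, Nat.cast_pow, map_mul, map_pow, h1, mul_one, val_prime P hl hl2, ← WithZero.exp_nsmul]
  congr 1
  simp

/-! ### rational squares -/

lemma nat_square {n : ℕ} (hn : n ≠ 0) (h : ∀ l : ℕ, l.Prime → Even (padicValNat l n)) :
    ∃ b : ℕ, n = b ^ 2 := by
  obtain ⟨a, b, hab, hsq⟩ := Nat.sq_mul_squarefree n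
  have hb0 : b ≠ 0 := by
    rintro rfl
    apply hn
    rw [← hab]
    simp
  have ha0 : a ≠ 0 := by
    rintro rfl
    apply hn
    rw [← hab]
    simp
  have ha1 : a = 1 := by
    by_contra hne
    obtain ⟨l, hl, hla⟩ := Nat.exists_prime_and_dvd hne
    have hF : Fact l.Prime := ⟨hl⟩
    have h1 := h l hl
    rw [← hab, padicValNat.mul (pow_ne_zero 2 hb0) ha0, padicValNat.pow] at h1
    have h2 : padicValNat l a = 1 := by
      have h3 : 1 ≤ padicValNat l a := one_le_padicValNat_of_dvd ha0 hla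
      have h4 : padicValNat l a < 2 := by
        by_contra h5
        push Not at h5
        have h6 : l ^ 2 ∣ a := (pow_dvd_pow l h5).trans pow_padicValNat_dvd
        have h7 : l * l ∣ a := by rwa [← sq]
        have h8 := hsq l h7
        exact hl.one_lt.ne' (Nat.isUnit_iff.1 h8)
      omega
    rw [h2] at h1
    rw [Nat.even_add] at h1
    have h9 : Even (2 * padicValNat l b) := even_two_mul _
    have := h1.1 h9
    exact absurd this (by decide)
  exact ⟨b, by rw [← hab, ha1, mul_one]⟩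

/-! ### the action -/

lemma uniq (hp2 : p ≠ 2) (c : Cyc p E) {P P' : HeightOneSpectrum (𝓞 E)}
    (hP : ((p : ℕ) : 𝓞 E) ∈ P.asIdeal) (hP' : ((p : ℕ) : 𝓞 E) ∈ P'.asIdeal) : P = P' := by
  have key : ∀ Q : HeightOneSpectrum (𝓞 E), ((p : ℕ) : 𝓞 E) ∈ Q.asIdeal →
      Ideal.span {Pool.Agent.Y447.WQ.lm c} = Q.asIdeal := by
    intro Q hQ
    have h1 : Pool.Agent.Y447.WQ.lm c ∈ Q.asIdeal :=
      one_sub_mem (p := p) _ (Pool.Agent.Y447.WQ.zz_prim c).pow_eq_one _ Q.isPrime hQ
    have h2 : (Pool.Agent.Y447.WQ.pl hp2 c).asIdeal.IsMaximal :=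
      (Pool.Agent.Y447.WQ.pl hp2 c).isMaximal
    exact h2.eq_of_le Q.isPrime.ne_top ((Ideal.span_singleton_le_iff_mem _).2 h1)
  exact HeightOneSpectrum.ext ((key P hP).symm.trans (key P' hP'))

lemma act_p (c : Cyc p E) (t : (ZMod p)ˣ) {P : HeightOneSpectrum (𝓞 E)}
    (hP : ((p : ℕ) : 𝓞 E) ∈ P.asIdeal) : ((p : ℕ) : 𝓞 E) ∈ (act c t P).asIdeal := by
  rw [Pool.Agent.Y125.WQ.mem_act, map_natCast]
  exact hP

lemma act_ne (c : Cyc p E) (t : (ZMod p)ˣ) {P P0 : HeightOneSpectrum (𝓞 E)}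
    (h0 : ∀ t, act c t P0 = P0) (hP : P ≠ P0) : act c t P ≠ P0 := by
  intro h
  apply hP
  have h1 := Pool.Agent.Y125.WQ.act_act c t⁻¹ t P
  rw [h, h0, mul_inv_cancel, Pool.Agent.Y125.WQ.act_one] at h1
  exact h1.symm

lemma sig_sig (c : Cyc p E) (s t : (ZMod p)ˣ) (x : E) : c.σ s (c.σ t x) = c.σ (s * t) x := by
  rw [map_mul]
  rfl

omit [Fact p.Prime] in
lemma sig_one (c : Cyc p E) (x : E) : c.σ 1 x = x := by
  rw [map_one]
  rfl

/-- an element fixed by complex conjugation is real -/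
lemma real_of_fixed (c : Cyc p E) {x : E} (h : c.σ (-1) x = x) (φ : E →+* ℂ) :
    ∃ r : ℝ, φ x = (r : ℂ) := by
  have h1 := Pool.Agent.Y125.WQ.conj_eq c φ x
  rw [h] at h1
  exact Complex.conj_eq_iff_real.1 h1

/-- an element of the smaller fixed group that moves something -/
lemma exists_moved (c : Cyc p E) {n : ℕ} {g : (ZMod p)ˣ} (hg : g ^ n ≠ 1) :
    ∃ x : E, Fx c n x ∧ c.σ g x ≠ x := by
  by_contra hcon
  push Not at hcon
  have hgal := Pool.Agent.Y688.WQ.isGal c
  set H : Subgroup (E ≃ₐ[ℚ] E) := Subgroup.map c.σ (powMonoidHom n : (ZMod p)ˣ →* (ZMod p)ˣ).ker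
    with hH
  have h1 : c.σ g ∈ IntermediateField.fixingSubgroup (IntermediateField.fixedField H) := by
    rw [IntermediateField.mem_fixingSubgroup_iff]
    intro x hx
    apply hcon
    intro t ht
    rw [IntermediateField.mem_fixedField_iff] at hx
    exact hx (c.σ t) ⟨t, ht, rfl⟩
  rw [IntermediateField.fixingSubgroup_fixedField] at h1
  obtain ⟨t, ht, hte⟩ := h1
  have h2 := Pool.Agent.Y688.WQ.sigma_inj c hte
  rw [h2] at ht
  exact hg ht

/-- an element of order `d` -/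
lemma exists_order {d : ℕ} (hd : d ∣ p - 1) : ∃ g : (ZMod p)ˣ, orderOf g = d := by
  obtain ⟨t, ht⟩ := IsCyclic.exists_generator (α := (ZMod p)ˣ)
  have h1 : orderOf t = p - 1 := by
    rw [orderOf_eq_card_of_forall_mem_zpowers ht, Nat.card_eq_fintype_card,
      ZMod.card_units_eq_totient, Nat.totient_prime Fact.out]
  have hp1 : p - 1 ≠ 0 := by
    have := (Fact.out : p.Prime).two_le
    omega
  obtain ⟨e, he⟩ := hd
  have he0 : e ≠ 0 := by
    rintro rfl
    exact hp1 (by rw [he, mul_zero])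
  refine ⟨t ^ e, ?_⟩
  rw [orderOf_pow_of_dvd he0 (by rw [h1, he]; exact Dvd.intro_left d rfl), h1, he,
    Nat.mul_div_cancel _ (Nat.pos_of_ne_zero he0)]

/-! ### the rational case -/

lemma top (hR : S_RAM) (hp2 : p ≠ 2) (c : Cyc p E) {P0 : HeightOneSpectrum (𝓞 E)}
    (hP0 : ((p : ℕ) : 𝓞 E) ∈ P0.asIdeal) : Cl c P0 (p - 1) := by
  intro α hα hF hT hev hP
  have hpp : p.Prime := Fact.out
  have hgal := Pool.Agent.Y688.WQ.isGal c
  have h1 : α ∈ (⊥ : IntermediateField ℚ E) := by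
    rw [IsGalois.mem_bot_iff_fixed]
    intro f
    obtain ⟨t, rfl⟩ := c.all f
    exact hF t (ZMod.units_pow_card_sub_one_eq_one p t)
  obtain ⟨r, hr⟩ := IntermediateField.mem_bot.1 h1
  have hrc : ((r : ℚ) : E) = α := by
    rw [← hr]
    simp
  obtain ⟨φ⟩ : Nonempty (E →+* ℂ) := inferInstance
  obtain ⟨x, hx, hφ⟩ := hT φ
  have hr0 : 0 < r := by
    have h2 : φ α = ((r : ℝ) : ℂ) := by
      rw [← hrc, map_ratCast]
      simp
    rw [hφ] at h2
    have h3 : x = (r : ℝ) := by exact_mod_cast h2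
    rw [h3] at hx
    exact_mod_cast hx
  set a : ℕ := r.num.natAbs with ha
  set b : ℕ := r.den with hb
  have hb0 : b ≠ 0 := r.den_nz
  have hab : r = (a : ℚ) / (b : ℚ) := by
    have h2 : ((a : ℤ)) = r.num := Int.natAbs_of_nonneg (Rat.num_nonneg.2 hr0.le)
    have h3 : (a : ℚ) = (r.num : ℚ) := by exact_mod_cast h2
    rw [h3, hb]
    exact (Rat.num_div_den r).symm
  have ha0 : a ≠ 0 := by
    intro h
    rw [h, Nat.cast_zero, zero_div] at hab
    exact hr0.ne' hab
  have habE : α = ((a : ℕ) : E) / ((b : ℕ) : E) := by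
    rw [← hrc, hab]
    push_cast
    rfl
  have heven : ∀ l : ℕ, l.Prime → Even (padicValNat l (a * b)) := by
    intro l hl
    have hlF : Fact l.Prime := ⟨hl⟩
    rw [padicValNat.mul ha0 hb0]
    by_cases hlp : l = p
    · subst hlp
      obtain ⟨m, hm⟩ := hP
      obtain ⟨-, h2, -⟩ := hR l hp2 E c P0 hP0
      have h3 := h2 r _ hr0.ne' (by rw [hrc]; exact hm)
      rw [hab, padicValRat.div (by exact_mod_cast ha0) (by exact_mod_cast hb0),
        padicValRat.of_nat, padicValRat.of_nat] at h3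
      have hp1 : ((l - 1 : ℕ) : ℤ) = (l : ℤ) - 1 := by
        have := hl.one_le
        push_cast [this]
        ring
      rw [hp1] at h3
      have hne : (l : ℤ) - 1 ≠ 0 := by
        have := hl.two_le
        omega
      have h4 : ((padicValNat l a : ℤ) - padicValNat l b) = -(2 * m) := by
        apply mul_left_cancel₀ hne
        linear_combination h3
      rcases Nat.even_or_odd (padicValNat l a + padicValNat l b) with h5 | h5
      · exact h5
      · obtain ⟨k, hk⟩ := h5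
        omega
    · obtain ⟨P, hPl⟩ : ∃ P : HeightOneSpectrum (𝓞 E), ((l : ℕ) : 𝓞 E) ∈ P.asIdeal := by
        have hnu : ¬ IsUnit ((l : ℕ) : 𝓞 E) := by
          intro hu
          have h2 : IsUnit (Algebra.norm ℤ (((l : ℕ) : 𝓞 E))) := hu.map _
          have h3 : Algebra.norm ℤ (((l : ℕ) : 𝓞 E)) = (l : ℤ) ^ Module.finrank ℤ (𝓞 E) := by
            have := Algebra.norm_algebraMap (R := ℤ) (S := 𝓞 E) (l : ℤ)
            simpa using this
          rw [h3, isUnit_pow_iff Module.finrank_pos.ne'] at h2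
          have h4 := Int.isUnit_iff.1 h2
          have := hl.two_le
          omega
        obtain ⟨M, hM, hMl⟩ := exists_max_ideal_of_mem_nonunits hnu
        refine ⟨⟨M, hM.isPrime, ?_⟩, hMl⟩
        rintro rfl
        rw [Ideal.mem_bot] at hMl
        exact hl.ne_zero (by exact_mod_cast hMl)
      have hPne : P ≠ P0 := by
        rintro rfl
        have h2 := int_notMem P.asIdeal P.isPrime l hl hPl p (by
          intro h
          have h3 : l ∣ p := by exact_mod_cast h
          exact hlp ((Nat.prime_dvd_prime_iff_eq hl hpp).1 h3))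
        exact h2 (by exact_mod_cast hP0)
      obtain ⟨m, hm⟩ := hev P hPne
      have hl2 := c.unram P l hl hlp hPl
      rw [habE, map_div₀, val_nat P hl hPl hl2 ha0, val_nat P hl hPl hl2 hb0, ← WithZero.exp_sub]
        at hm
      have h3 := exp_inj' hm
      rcases Nat.even_or_odd (padicValNat l a + padicValNat l b) with h5 | h5
      · exact h5
      · obtain ⟨k, hk⟩ := h5
        omega
  obtain ⟨d, hd⟩ := nat_square (Nat.mul_ne_zero ha0 hb0) heven
  refine ⟨((d : ℕ) : E) / ((b : ℕ) : E), fun t _ => ?_, ?_⟩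
  · rw [map_div₀, map_natCast, map_natCast]
  · have hbE : ((b : ℕ) : E) ≠ 0 := by exact_mod_cast hb0
    rw [habE, div_pow, div_eq_div_iff hbE (pow_ne_zero 2 hbE)]
    have h2 : (((a * b : ℕ) : ℕ) : E) = ((d ^ 2 : ℕ) : E) := by rw [hd]
    push_cast at h2
    linear_combination ((b : ℕ) : E) * h2

/-! ### the step -/

lemma sq_eq_one_iff_of_prime {u : ZMod p} (h : u ^ 2 = 1) : u = 1 ∨ u = -1 := by
  have h1 : (u - 1) * (u + 1) = 0 := by linear_combination h
  rcases mul_eq_zero.1 h1 with h2 | h2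
  · exact Or.inl (sub_eq_zero.1 h2)
  · exact Or.inr (eq_neg_of_add_eq_zero_left h2)

lemma step (hR : S_RAM) (hp2 : p ≠ 2) (c : Cyc p E) {P0 : HeightOneSpectrum (𝓞 E)}
    (hP0 : ((p : ℕ) : 𝓞 E) ∈ P0.asIdeal) (h0 : ∀ t, act c t P0 = P0) {n : ℕ} (hn : Even n)
    (hn0 : 0 < n) (hdvd : 2 * n ∣ p - 1) (H : Cl c P0 (2 * n)) : Cl c P0 n := by
  intro α hα hF hT hev hP
  obtain ⟨g, hg⟩ := exists_order (p := p) hdvd
  have hg2n : g ^ (2 * n) = 1 := by rw [← hg]; exact pow_orderOf_eq_one g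
  have hsq : ∀ u : (ZMod p)ˣ, u ^ 2 = 1 → u = 1 ∨ u = -1 := by
    intro u hu
    have h1 : ((u : ZMod p)) ^ 2 = 1 := by
      rw [← Units.val_pow_eq_pow_val, hu, Units.val_one]
    rcases sq_eq_one_iff_of_prime h1 with h2 | h2
    · exact Or.inl (Units.ext h2)
    · exact Or.inr (Units.ext (by rw [h2, Units.val_neg, Units.val_one]))
  have hgn1 : g ^ n ≠ 1 := by
    intro h
    have h1 := orderOf_dvd_of_pow_eq_one h
    rw [hg] at h1
    have := Nat.le_of_dvd hn0 h1
    omega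
  have hgn : g ^ n = -1 := by
    rcases hsq (g ^ n) (by rw [← pow_mul, mul_comm n 2, hg2n]) with h | h
    · exact absurd h hgn1
    · exact h
  have hcov : ∀ t : (ZMod p)ˣ, t ^ (2 * n) = 1 → t ^ n = 1 ∨ (g⁻¹ * t) ^ n = 1 := by
    intro t ht
    rcases hsq (t ^ n) (by rw [← pow_mul, mul_comm n 2, ht]) with h | h
    · exact Or.inl h
    · refine Or.inr ?_
      rw [mul_pow, inv_pow, hgn, h]
      exact inv_mul_cancel _
  have hneg : ((-1 : (ZMod p)ˣ)) ^ n = 1 := hn.neg_one_pow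
  have hss : ∀ x, Fx c n x → c.σ g (c.σ g x) = x := by
    intro x hx
    rw [sig_sig]
    apply hx
    rw [← sq, ← pow_mul, hg2n]
  have hsF : ∀ x, Fx c n x → Fx c n (c.σ g x) := by
    intro x hx t ht
    rw [sig_sig, mul_comm, ← sig_sig, hx t ht]
  have hup : ∀ x, Fx c n x → c.σ g x = x → Fx c (2 * n) x := by
    intro x hx hgx t ht
    rcases hcov t ht with h | h
    · exact hx t h
    · have h1 : t = g * (g⁻¹ * t) := by rw [mul_inv_cancel_left]
      rw [h1, ← sig_sig, hx _ h, hgx]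
  have hdown : ∀ x, Fx c (2 * n) x → Fx c n x := by
    intro x hx t ht
    exact hx t (by rw [mul_comm, pow_mul, ht, one_pow])
  have hFmul : ∀ (k : ℕ) (x y : E), Fx c k x → Fx c k y → Fx c k (x * y) := by
    intro k x y hx hy t ht
    rw [map_mul, hx t ht, hy t ht]
  -- the norm
  obtain ⟨b, hbF, hb⟩ := H (α * c.σ g α) (mul_ne_zero hα (by rw [Ne, map_eq_zero]; exact hα))
    (hup _ (hFmul n _ _ hF (hsF _ hF)) (by rw [map_mul, hss α hF, mul_comm]))
    (by
      intro φ
      obtain ⟨x, hx, h1⟩ := hT φ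
      obtain ⟨y, hy, h2⟩ := hT (φ.comp (c.σ g : E →+* E))
      refine ⟨x * y, mul_pos hx hy, ?_⟩
      rw [map_mul, h1]
      have h3 : φ (c.σ g α) = (y : ℂ) := h2
      rw [h3]
      push_cast
      rfl)
    (by
      intro P hPne
      obtain ⟨m, hm⟩ := hev P hPne
      obtain ⟨m', hm'⟩ := hev (act c g P) (act_ne c g h0 hPne)
      refine ⟨m + m', ?_⟩
      rw [map_mul, hm, ← Pool.Agent.Y125.WQ.val_act, hm', ← WithZero.exp_add]
      congr 1
      ring)
    (by
      obtain ⟨m, hm⟩ := hP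
      refine ⟨m, ?_⟩
      rw [map_mul, ← Pool.Agent.Y125.WQ.val_act, h0, hm, ← WithZero.exp_add]
      congr 1
      push_cast
      ring)
  have hσα : c.σ g α ≠ 0 := by rw [Ne, map_eq_zero]; exact hα
  have hb0 : b ≠ 0 := by
    rintro rfl
    rw [zero_pow two_ne_zero] at hb
    exact mul_ne_zero hα hσα hb
  have hσb : c.σ g b = b := hbF g hg2n
  -- Hilbert 90
  obtain ⟨r, w, hr0, hw0, hrw, hrF, hwF⟩ : ∃ r w : E, r ≠ 0 ∧ w ≠ 0 ∧ α = r * w ^ 2 ∧
      Fx c (2 * n) r ∧ Fx c n w := by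
    by_cases hu : α = -b
    · refine ⟨α, 1, hα, one_ne_zero, by ring, hup α hF ?_, fun t _ => map_one _⟩
      rw [hu, map_neg, hσb]
    · have hw : α + b ≠ 0 := fun h => hu (eq_neg_of_add_eq_zero_left h)
      have hw' : c.σ g α + b ≠ 0 := by
        intro h
        apply hw
        have h1 : c.σ g (α + b) = 0 := by rw [map_add, hσb, h]
        rwa [map_eq_zero] at h1
      refine ⟨b ^ 3 / ((α + b) * (c.σ g α + b)), (α + b) / b, ?_, div_ne_zero hw hb0, ?_, ?_, ?_⟩
      · exact div_ne_zero (pow_ne_zero 3 hb0) (mul_ne_zero hw hw')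
      · have h1 : (α + b) * (c.σ g α + b) * b ^ 2 ≠ 0 :=
          mul_ne_zero (mul_ne_zero hw hw') (pow_ne_zero 2 hb0)
        rw [div_pow, div_mul_div_comm, eq_div_iff h1]
        linear_combination (α + b) * b ^ 2 * hb
      · apply hup
        · intro t ht
          have h1 := hdown b hbF t ht
          have h2 := hF t ht
          have h3 := hsF α hF t ht
          rw [map_div₀, map_pow, map_mul, map_add, map_add, h1, h2, h3]
        · rw [map_div₀, map_pow, map_mul, map_add, map_add, hσb, hss α hF, mul_comm]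
      · intro t ht
        rw [map_div₀, map_add, hF t ht, hdown b hbF t ht]
  have hreal : ∀ x : E, Fx c n x → ∀ φ : E →+* ℂ, ∃ y : ℝ, φ x = (y : ℂ) := fun x hx φ =>
    real_of_fixed c (hx (-1) hneg) φ
  have hrT : TP r := by
    intro φ
    obtain ⟨x, hx, h1⟩ := hT φ
    obtain ⟨y, hy⟩ := hreal w hwF φ
    have hy0 : y ≠ 0 := by
      rintro rfl
      have : φ w ≠ 0 := by rw [Ne, map_eq_zero]; exact hw0
      apply this
      rw [hy]
      simp
    refine ⟨x / y ^ 2, by positivity, ?_⟩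
    have h2 : φ α = φ r * (φ w) ^ 2 := by rw [hrw, map_mul, map_pow]
    rw [h1, hy] at h2
    have hyc : (y : ℂ) ^ 2 ≠ 0 := pow_ne_zero 2 (by exact_mod_cast hy0)
    push_cast
    rw [eq_div_iff hyc]
    exact h2.symm
  have hrev : ∀ P : HeightOneSpectrum (𝓞 E), P ≠ P0 → ∃ m : ℤ, P.valuation E r = exp (2 * m) := by
    intro P hPne
    obtain ⟨m, hm⟩ := hev P hPne
    obtain ⟨k, hk⟩ := exists_exp P hw0
    obtain ⟨l, hl⟩ := exists_exp P hr0
    rw [hrw, map_mul, map_pow, hk, hl, ← WithZero.exp_nsmul, ← WithZero.exp_add] at hm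
    have h1 := exp_inj' hm
    rw [nsmul_eq_mul] at h1
    push_cast at h1
    refine ⟨m - k, ?_⟩
    rw [hl]
    congr 1
    linarith
  obtain ⟨k, hk⟩ := exists_exp P0 hr0
  obtain ⟨-, -, hR3⟩ := hR p hp2 E c P0 hP0
  have hk1 := hR3 r g 1 k hr0 (Or.inl rfl) (by rw [hrF g hg2n]; push_cast; ring) hk
  have hk2 : (2 * n : ℤ) ∣ k := by
    have h1 : g ^ k = 1 := Units.ext (by rw [hk1, Units.val_one]; push_cast; rfl)
    have h2 := orderOf_dvd_iff_zpow_eq_one.2 h1
    rw [hg] at h2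
    exact_mod_cast h2
  obtain ⟨l, hl⟩ := hk2
  rcases Int.even_or_odd l with ⟨m, hm⟩ | ⟨m, hm⟩
  · obtain ⟨ρ, hρF, hρ⟩ := H r hr0 hrF hrT hrev ⟨m, by
      rw [hk, hl, hm]
      congr 1
      push_cast
      ring⟩
    refine ⟨ρ * w, hFmul n _ _ (hdown ρ hρF) hwF, ?_⟩
    rw [hrw, hρ]
    ring
  · -- the element of odd valuation
    obtain ⟨x, hxF, hxg⟩ := exists_moved c hgn1
    set θ : E := x - c.σ g x with hθ
    have hθ0 : θ ≠ 0 := fun h => hxg (sub_eq_zero.1 h).symm
    have hθF : Fx c n θ := by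
      intro t ht
      rw [hθ, map_sub, hxF t ht, hsF x hxF t ht]
    have hθg : c.σ g θ = -θ := by
      rw [hθ, map_sub, hss x hxF]
      ring
    obtain ⟨j, hj⟩ := exists_exp P0 hθ0
    have hj1 := hR3 θ g (-1) j hθ0 (Or.inr rfl) (by rw [hθg]; push_cast; ring) hj
    have hj2 : (2 * n : ℤ) ∣ j - n := by
      have h1 : g ^ (j - n) = 1 := by
        rw [zpow_sub, zpow_natCast, hgn]
        have h2 : g ^ j = -1 := Units.ext (by
          rw [hj1, Units.val_neg, Units.val_one]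
          push_cast
          rfl)
        rw [h2]
        exact mul_inv_cancel _
      have h2 := orderOf_dvd_iff_zpow_eq_one.2 h1
      rw [hg] at h2
      exact_mod_cast h2
    obtain ⟨i, hi⟩ := hj2
    have hθ2 : Fx c (2 * n) (θ ^ 2) := by
      apply hup
      · intro t ht
        rw [map_pow, hθF t ht]
      · rw [map_pow, hθg, neg_sq]
    obtain ⟨ρ, hρF, hρ⟩ := H (r * θ ^ 2) (mul_ne_zero hr0 (pow_ne_zero 2 hθ0))
      (hFmul _ _ _ hrF hθ2)
      (by
        intro φ
        obtain ⟨y, hy, h1⟩ := hrT φ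
        obtain ⟨u, hu⟩ := hreal θ hθF φ
        have hu0 : u ≠ 0 := by
          rintro rfl
          have : φ θ ≠ 0 := by rw [Ne, map_eq_zero]; exact hθ0
          apply this
          rw [hu]
          simp
        refine ⟨y * u ^ 2, by positivity, ?_⟩
        rw [map_mul, map_pow, h1, hu]
        push_cast
        ring)
      (by
        intro P hPne
        obtain ⟨m', hm'⟩ := hrev P hPne
        obtain ⟨k', hk'⟩ := exists_exp P hθ0
        refine ⟨m' + k', ?_⟩
        rw [map_mul, map_pow, hm', hk', ← WithZero.exp_nsmul, ← WithZero.exp_add]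
        congr 1
        rw [nsmul_eq_mul]
        push_cast
        ring)
      (by
        refine ⟨m + i + 1, ?_⟩
        rw [map_mul, map_pow, hk, hj, ← WithZero.exp_nsmul, ← WithZero.exp_add]
        congr 1
        rw [nsmul_eq_mul, hl, hm]
        have h1 : j = 2 * n * i + n := by linarith
        rw [h1]
        push_cast
        ring)
    refine ⟨ρ * w / θ, ?_, ?_⟩
    · intro t ht
      rw [map_div₀, map_mul, hdown ρ hρF t ht, hwF t ht, hθF t ht]
    · rw [div_pow, eq_div_iff (pow_ne_zero 2 hθ0), mul_pow, ← hρ, hrw]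
      ring

/-! ### all levels -/

lemma levels (hR : S_RAM) (hp2 : p ≠ 2) (c : Cyc p E) {P0 : HeightOneSpectrum (𝓞 E)}
    (hP0 : ((p : ℕ) : 𝓞 E) ∈ P0.asIdeal) (h0 : ∀ t, act c t P0 = P0) {s q : ℕ} (hq : 0 < q)
    (hs : p - 1 = 2 ^ s * q) : ∀ i : ℕ, i < s → Cl c P0 (2 ^ (s - i) * q) := by
  intro i
  induction i with
  | zero =>
    intro _
    rw [Nat.sub_zero, ← hs]
    exact top hR hp2 c hP0
  | succ i ih =>
    intro hi
    have h1 := ih (by omega)
    have h2 : 2 ^ (s - i) * q = 2 * (2 ^ (s - (i + 1)) * q) := by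
      have : s - i = (s - (i + 1)) + 1 := by omega
      rw [this, pow_succ]
      ring
    rw [h2] at h1
    refine step hR hp2 c hP0 h0 ?_ (by positivity) ?_ h1
    · have : s - (i + 1) = (s - (i + 1) - 1) + 1 := by omega
      rw [this, pow_succ]
      exact ⟨2 ^ (s - (i + 1) - 1) * q, by ring⟩
    · rw [← h2, hs]
      exact Nat.mul_dvd_mul_right (pow_dvd_pow 2 (Nat.sub_le s i)) q

omit [Fact p.Prime] in
lemma exp_prod {ι : Type*} (P : HeightOneSpectrum (𝓞 E)) (T : Finset ι) (f : ι → E)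
    (h : ∀ t ∈ T, ∃ m : ℤ, P.valuation E (f t) = exp (2 * m)) :
    ∃ m : ℤ, P.valuation E (∏ t ∈ T, f t) = exp (2 * m) := by
  classical
  induction T using Finset.induction_on with
  | empty => exact ⟨0, by simp⟩
  | insert a T ha ih =>
    obtain ⟨m, hm⟩ := ih fun t ht => h t (Finset.mem_insert_of_mem ht)
    obtain ⟨m', hm'⟩ := h a (Finset.mem_insert_self a T)
    refine ⟨m' + m, ?_⟩
    rw [Finset.prod_insert ha, map_mul, hm, hm', ← WithZero.exp_add]
    congr 1
    ring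

theorem mainTOW (hR : S_RAM) : S_TOW := by
  intro p _ hp2 s q hq hs E _ _ c α hα hev hP
  classical
  have hpp : p.Prime := Fact.out
  obtain ⟨P0, hP0⟩ : ∃ P0 : HeightOneSpectrum (𝓞 E), ((p : ℕ) : 𝓞 E) ∈ P0.asIdeal :=
    ⟨Pool.Agent.Y447.WQ.pl hp2 c, p_mem_of_one_sub_mem _ (Pool.Agent.Y447.WQ.zz_prim c) _
      (Ideal.mem_span_singleton_self _)⟩
  have h0 : ∀ t, act c t P0 = P0 := fun t => uniq hp2 c (act_p c t hP0) hP0
  have hq0 : 0 < q := hq.pos
  have hs0 : 0 < s := by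
    rcases Nat.eq_zero_or_pos s with h | h
    · exfalso
      rw [h, pow_zero, one_mul] at hs
      have h1 : Odd p := hpp.odd_of_ne_two hp2
      obtain ⟨a, ha⟩ := h1
      obtain ⟨b, hb⟩ := hq
      omega
    · exact h
  have hCl : Cl c P0 (2 * q) := by
    have h1 := levels hR hp2 c hP0 h0 hq0 hs (s - 1) (by omega)
    have h2 : s - (s - 1) = 1 := by omega
    rwa [h2, pow_one] at h1
  set T : Finset (ZMod p)ˣ := Finset.univ.filter (fun t : (ZMod p)ˣ => t ^ (2 * q) = 1) with hT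
  set T1 : Finset (ZMod p)ˣ := Finset.univ.filter (fun t : (ZMod p)ˣ => t ^ q = 1) with hT1
  have hsplit : ∏ t ∈ T, c.σ t α = (∏ t ∈ T1, c.σ t α) * c.σ (-1) (∏ t ∈ T1, c.σ t α) := by
    rw [map_prod, ← Finset.prod_filter_mul_prod_filter_not T (fun t : (ZMod p)ˣ => t ^ q = 1)]
    congr 1
    · refine Finset.prod_congr ?_ fun _ _ => rfl
      ext t
      simp only [hT, hT1, Finset.mem_filter, Finset.mem_univ, true_and]
      constructor
      · exact fun h => h.2
      · exact fun h => ⟨by rw [mul_comm, pow_mul, h, one_pow], h⟩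
    · symm
      refine Finset.prod_bij (fun t _ => -t) ?_ ?_ ?_ ?_
      · intro t ht
        simp only [hT, hT1, Finset.mem_filter, Finset.mem_univ, true_and] at ht ⊢
        rw [mul_comm, pow_mul, hq.neg_pow, ht]
        refine ⟨by rw [neg_sq, one_pow], fun h => ?_⟩
        have h1 := congrArg (Units.val) h
        rw [Units.val_neg, Units.val_one] at h1
        have h2 : (2 : ZMod p) = 0 := by linear_combination -h1
        have h3 : ((2 : ℕ) : ZMod p) = 0 := by exact_mod_cast h2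
        rw [ZMod.natCast_eq_zero_iff] at h3
        exact hp2 ((Nat.prime_dvd_prime_iff_eq hpp Nat.prime_two).1 h3)
      · intro a _ b _ h
        exact neg_injective h
      · intro t ht
        simp only [hT, hT1, Finset.mem_filter, Finset.mem_univ, true_and] at ht ⊢
        refine ⟨-t, ?_, neg_neg t⟩
        obtain ⟨ht1, ht2⟩ := ht
        rw [hq.neg_pow]
        have h1 : ((t ^ q : (ZMod p)ˣ) : ZMod p) ^ 2 = 1 := by
          rw [← Units.val_pow_eq_pow_val, ← pow_mul, mul_comm q 2, ht1, Units.val_one]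
        rcases sq_eq_one_iff_of_prime h1 with h2 | h2
        · exact absurd (Units.ext h2) ht2
        · apply Units.ext
          rw [Units.val_neg, h2, neg_neg, Units.val_one]
      · intro t _
        rw [sig_sig]
        congr 2
        rw [neg_one_mul]
  have hσ0 : ∀ t, c.σ t α ≠ 0 := fun t => by rw [Ne, map_eq_zero]; exact hα
  have hA0 : (∏ t ∈ T1, c.σ t α) ≠ 0 := Finset.prod_ne_zero_iff.2 fun t _ => hσ0 t
  obtain ⟨β, -, hβ⟩ := hCl (∏ t ∈ T, c.σ t α) (Finset.prod_ne_zero_iff.2 fun t _ => hσ0 t)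
    (by
      intro u hu
      rw [map_prod]
      refine Finset.prod_bij (fun t _ => u * t) ?_ ?_ ?_ ?_
      · intro t ht
        simp only [hT, Finset.mem_filter, Finset.mem_univ, true_and] at ht ⊢
        rw [mul_pow, hu, ht, one_mul]
      · intro a _ b _ h
        exact mul_left_cancel h
      · intro t ht
        simp only [hT, Finset.mem_filter, Finset.mem_univ, true_and] at ht ⊢
        refine ⟨u⁻¹ * t, ?_, mul_inv_cancel_left u t⟩
        rw [mul_pow, inv_pow, hu, ht, inv_one, one_mul]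
      · intro t _
        rw [sig_sig])
    (by
      intro φ
      refine ⟨‖φ (∏ t ∈ T1, c.σ t α)‖ ^ 2, ?_, ?_⟩
      · have : φ (∏ t ∈ T1, c.σ t α) ≠ 0 := by rw [Ne, map_eq_zero]; exact hA0
        positivity
      · rw [hsplit, map_mul, ← Pool.Agent.Y125.WQ.conj_eq, Complex.mul_conj,
          Complex.normSq_eq_norm_sq])
    (by
      intro P _
      refine exp_prod P T _ fun t _ => ?_
      rw [← Pool.Agent.Y125.WQ.val_act]
      exact hev _)
    ⟨0, by
      rw [map_prod, mul_zero, WithZero.exp_zero]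
      refine Finset.prod_eq_one fun t _ => ?_
      rw [← Pool.Agent.Y125.WQ.val_act]
      exact hP _ (act_p c t hP0)⟩
  exact ⟨β, hβ⟩

end Pool.Agent.Y683.WQ
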